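import Pool.Agent.V1161.Tate

/-!
# The Tate conjecture over number fields for Fermat varieties of all dimensions

Let `Y` be a variety over a number field `K` which over the algebraic closure becomes isomorphic to a
Fermat variety `∑ x_i ^ m = 0` (for instance any diagonal hypersurface of degree `m` over `K`) or to
a product of Fermat varieties of the same degree `m`, with at most `N` variables altogether. The
cohomology of `Y` over the algebraic closure is the sum of the classes of linear sections and of
lines `V(s)`, `s` a multiset of an even number of nonzero residues modulo `m` with sum zero, on which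
the absolute Galois group of `ℚ(ζ_m)` acts by a character: a Frobenius element at a prime with
residue field `F` of `q` elements acts by `q ^ (- card s / 2)` times the product of the Gauss sums
(Weil). The line consists of Tate classes if and only if this character has finite order `k`, and the
Tate classes are spanned by such lines. The theorem says that all these lines are algebraic, if
`lcm(2, m₀)` is good, `m₀` being the part of `m` composed of the small primes, see
`Pool.Agent.Results.MP_e12fcd_ag.FermatAllDimensions`. There is no condition on the other primes.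
-/

namespace Pool.Agent.Results.MP_938ce2_ag.FermatAllDimensions

open Pool.Agent.H916R2 Pool.Agent.Y2.Cv Pool.Agent.V1161

/-- **Tate classes.** Some power of the Galois character on the line of `s` is trivial: for all but
finitely many primes of `ℚ(ζ_m)`, given by a prime number `ℓ` and a character `χ` of order `m` of the
residue field `F`, the power of the Frobenius eigenvalue is one. -/
def TateLine (m : ℕ) (s : Multiset (ZMod m)) : Prop :=
  ∃ k B : ℕ, 0 < k ∧ ∀ ℓ : ℕ, B < ℓ → ℓ.Prime → ∀ (F : Type) [Field F] [Fintype F],
    Fintype.card F = ℓ ^ orderOf (ℓ : ZMod m) → ∀ (χ : MulChar F ℂ) (ψ : AddChar F ℂ),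
    orderOf χ = m → ψ ≠ 1 →
    (s.map fun a => gaussSum (χ ^ a.val) ψ).prod ^ k =
      ((Fintype.card F : ℂ) ^ (Multiset.card s / 2)) ^ k

/-- **The Tate conjecture for Fermat varieties.** -/
theorem result (N m : ℕ) (hm : 2 ≤ m) (hgood : GoodDegree2 (Nat.lcm 2 (smallPart N m)))
    (s : Multiset (ZMod m)) (hs : s ≠ 0) (hcard : Multiset.card s ≤ N)
    (heven : Even (Multiset.card s)) (h0 : (0 : ZMod m) ∉ s) (hsum : s.sum = 0)
    (hT : TateLine m s) :
    Generated (Nat.lcm 2 m) (SurfaceOrCurveProduct (Nat.lcm 2 m))
      (s.map fun a => ((Nat.lcm 2 m / m * a.val : ℕ) : ZMod (Nat.lcm 2 m))) := by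
  obtain ⟨k, B, hk, H⟩ := hT
  have hmz : NeZero m := ⟨by omega⟩
  obtain ⟨ℓ, hℓB, hℓ, hℓm⟩ := Nat.forall_exists_prime_gt_and_eq_mod
    (q := m) (a := 1) isUnit_one B
  have hF : Fact ℓ.Prime := ⟨hℓ⟩
  have hH : IsHodge m s := by
    apply hodge_prime hm h0 heven hsum (ℓ := ℓ) hℓm
    intro χ ψ hχ hψ
    refine ⟨k, hk, ?_⟩
    have h1 := H ℓ hℓB hℓ (ZMod ℓ) (by rw [hℓm, orderOf_one, pow_one, ZMod.card]) χ ψ hχ hψ
    rw [ZMod.card] at h1
    exact h1
  exact uniform (N := N) (by omega) hgood s hH hcard hs

end Pool.Agent.Results.MP_938ce2_ag.FermatAllDimensions
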