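import Pool.Agent.V1157.FD.Main

/-!
# The Tate conjecture and the fields of definition of Tate classes

Let `F` be a number field with absolute Galois group `G`, and fix a dimension `n` and a codimension
`r`. The Tate conjecture in codimension `r` holds for all varieties of dimension `n` over all finite
extensions of `F` if (and only if) there is `D` such that on each variety `X` over `F` of dimension
`n` the Tate classes in `H^{2r}(X)(r)` are sums of algebraic classes, of linear combinations of Tate
classes defined over extensions of `F` of degree at most `D`, and of elements of a
subrepresentation of `H^{2r}(X)(r)` generated by `D` elements.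

Proof: let `t` be a Tate class on `S` over `L` which is not algebraic. Choose a cyclic extension
`L'` of `L` of large prime degree `N` and a complete intersection `V` over `F`, of dimension `n`, in
the restriction of scalars of `S^M` from `L'` to `F`. It has projections `p i m : V ⟶ S` over `k`,
`i ∈ ℤ/N`, `m < M`, which are permuted by the Galois group of `k` over `L`. The functions
`i ↦ (p i m)_* s` with values in the Tate classes on `S` are constant if `s` is fixed by a
subgroup of index at most `D`, because this subgroup acts transitively on `ℤ/N`, even after
intersecting it with the group which fixes all Tate classes on `S`. For `s = (p 0 m)^* t` this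
function is a multiple of `t` at `i = 0` and zero elsewhere, modulo algebraic classes. Finally the
maps `s ↦ (i ↦ (p i m)_* s)`, for all `m`, are equivariant, so that the image of a subrepresentation
generated by `D` elements is of bounded dimension, while `M` is as large as we please.
-/

open CategoryTheory AlgebraicGeometry

universe u v w x y

namespace Pool.Agent.Results.MP_938ce2_ag.FieldsOfDefinition

open Pool.Agent.H914 Pool.Agent.H914.VarClass Pool.Agent.H914.VarClass.Obj Pool.Agent.W492.BB
  Pool.Agent.TH133 Pool.Agent.V1157.FD

theorem result {k : Type u} [Field k] {𝒱 : VarClass k} {C : TheoryData.{u, v, 0} 𝒱 ℚ}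
    [IsChowProj C] {K : Type w} [Field K] [CharZero K] {H : WeilTheoryData.{u, v, w} C K}
    [IsWeilProj H] {G : Type x} [Group G] (R : FormData.{u, v, w, x, y} G H) (hR : IsGalois R)
    (n r : ℕ) (hfin : ∀ X : 𝒱.Obj, Module.Finite K (H.A X)) (hP : HasTwistedPowers R n) :
    TateConj R n r ↔ ∃ D, TateWithin R n r D :=
  ⟨fun h => ⟨0, within_of_algebraic h⟩, fun ⟨_, hD⟩ => algebraic_of_within hR hfin hP hD⟩

end Pool.Agent.Results.MP_938ce2_ag.FieldsOfDefinition
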