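import Mathlib
import Pool.Agent.V1141.OF.Orth6

/-!
# Tate classes on products of varieties with independent eigenvalues of one element of the Galois
# group, in cohomology groups of any degrees (even or odd), and of arbitrary varieties

Let `K` be a number field with Galois group `Γ` and cyclotomic character `χ`. Let `X i`, `i ∈ I`, be
finitely many smooth projective varieties over `K`, and let `V i` be the dual of a part (for example
the primitive, or the transcendental part) of the cohomology group of `X i` in a degree `w i`, EVEN OR
ODD, with coefficients in the algebraic closure `k` of `ℚ_ℓ`, with the nondegenerate pairing `ω i` given
by the Poincare pairing, symmetric (`sgn i = 1`) or alternating (`sgn i = -1`), with multiplier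
`χ ^ w i`. Let `U` be another smooth projective variety over `K`, and `M` any Tate twist of a cohomology
group of `U` (or any other representation of `Γ`).

Suppose:

* the only endomorphisms of `V i` which commute with a subgroup of finite index of `Γ` are the scalars;
  in other words, the only Tate classes in `V i ⊗ V i` are the multiples of the pairing (if there are
  more idempotents, for example if `V i` has real multiplication, `V i` has to be decomposed);
* for ONE element `γ` of `Γ`, for example a Frobenius element, the eigenvalues on each `V i` are simple,
  at most one of them is self-dual (`a ^ 2 = χ(γ) ^ w i`), and they have only the trivial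
  multiplicative relations with each other and with the eigenvalues `β` of `γ` on `M`
  (`NoRelationsWith`); for `β` the following condition (`ConjugatedWith`) is sufficient if they have
  only the trivial relations with each other and with `χ(γ)`: for every eigenvalue `a` on `V i` some
  endomorphism of the field `k` fixes a positive power of `β`, the number `χ(γ)` and the characteristic
  polynomials of `γ` on the `V i`, and maps `a` to its dual. For example, it is sufficient if `U` has
  supersingular reduction at the place of the Frobenius element `γ`, or if a power of `β` lies in a
  field linearly disjoint from the field of the eigenvalues on the `V i`.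

Then the Tate classes (over all finite extensions of `K`) in the tensor products of the `V (t l)` with
`M` are linear combinations of products of the pairings and of Tate classes in `M`, if every `V i` with a
symmetric pairing occurs less than `dim V i` times in the product. (In the product of `dim V i` copies
there is one more Tate class, the determinant.) There is no such restriction for the `V i` with
alternating pairings. So the Tate conjecture is true for these classes if it is true for `U`.

For example, let the `X i` be hypersurfaces of any dimensions, and `X = ∏ X i ^ {m i}`, with `m i` less
than the dimension of the primitive cohomology of `X i` if `dim X i` is even. If the conditions on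
one Frobenius element are satisfied, the Tate conjecture holds for `X × U` in all codimensions if
it holds for `U`.

Nothing is assumed on the semisimplicity of the representations, which is not known for cohomology
groups of degree greater than one (the `V i` are not assumed to be irreducible). The Lie algebra of
the endomorphisms of `V i` which preserve `ω i` and kill all scalar components of all equivariant maps
contains the diagonal matrices; by the representation theory of `sl(2)` (a multilinear form which is
killed by a root vector and by the diagonal matrices is killed by the opposite root vector) the graph of
the root vectors is symmetric. Its components give endomorphisms commuting with subgroups of finite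
index. So it is connected, and the Lie algebra is the full orthogonal or symplectic one. The first
fundamental theorem of invariant theory (of the starting library, `Pool.Agent.TH125.Nod.fft`, for
products of orthogonal and symplectic Lie algebras) gives the result.
-/

set_option autoImplicit false

namespace Pool.Agent.Results.MP_938ce2_ag.OneElementAnyDegrees

open Module Pool.Agent.V1141.OF

/-- **Tate classes on products of varieties with independent eigenvalues in any degrees and of
arbitrary varieties.** -/
theorem result {k : Type} [Field k] [CharZero k] [IsAlgClosed k] {I : Type} [Fintype I]
    -- the duals of parts of the cohomology groups of `X i` in degree `w i`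
    {V : I → Type} [∀ i, AddCommGroup (V i)] [∀ i, Module k (V i)]
    [∀ i, FiniteDimensional k (V i)]
    -- the cohomology of `U`
    {M : Type} [AddCommGroup M] [Module k M] [FiniteDimensional k M]
    -- the Galois group, its actions and the cyclotomic character
    {Γ : Type} [Group Γ] (ρ : ∀ i, Representation k Γ (V i)) (τ : Representation k Γ M)
    (χ : Γ →* k) (w : I → ℕ)
    -- the pairings
    (sgn : I → ℤ) (hsgn : ∀ i, sgn i = 1 ∨ sgn i = -1)
    (ω : ∀ i, V i →ₗ[k] V i →ₗ[k] k) (hsym : ∀ i u v, ω i u v = (sgn i : k) * ω i v u)
    (hnd : ∀ i, ∀ u, (∀ v, ω i v u = 0) → u = 0)
    (hω : ∀ i s u v, ω i (ρ i s u) (ρ i s v) = χ s ^ w i * ω i u v)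
    (hEnd : ∀ i, OnlyScalarEndos (ρ i))
    -- one element of the Galois group
    (γ : Γ) (hsep : ∀ i, (LinearMap.charpoly (ρ i γ)).Separable)
    (hself : ∀ i a a', Module.End.HasEigenvalue (ρ i γ) a → Module.End.HasEigenvalue (ρ i γ) a' →
      a ^ 2 = χ γ ^ w i → a' ^ 2 = χ γ ^ w i → a = a')
    (hM : ∀ β, Module.End.HasEigenvalue (τ γ) β → NoRelationsWith ρ χ w γ β ∨
      ((∀ r : ℕ, NoRelationsWith ρ χ w γ (χ γ ^ r)) ∧ ConjugatedWith ρ χ w γ β)) :
    TateClassesFromPairings ρ τ χ w ω sgn := by
  classical
  exact orth_main ρ τ χ w sgn hsgn ω hsym hnd hω hEnd γ hsep hself fun β hβ =>
    (hM β hβ).elim id fun h => noRelations_of_conj ρ χ w ω hnd hω h.1 h.2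

end Pool.Agent.Results.MP_938ce2_ag.OneElementAnyDegrees
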